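import Mathlib

set_option autoImplicit false
set_option linter.unusedSectionVars false

/-!
# An oscillating solution of a delay equation with maximal delay `(3 + π) / 2`
-/

open MeasureTheory Set Filter

namespace Pool.Agent.X188.Delay

/-- half period -/
noncomputable def L : ℝ := (3 + Real.pi) / 2

theorem L_pos : 0 < L := by
  unfold L
  have := Real.pi_pos
  positivity

theorem L_gt : 3 < L := by
  unfold L
  have := Real.pi_gt_three
  linarith

theorem L_sub : L - 3 / 2 = Real.pi / 2 := by
  unfold L
  ring

/-- phase -/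
noncomputable def ph (t : ℝ) : ℝ := Int.fract (t / L) * L

/-- sign -/
noncomputable def sg (t : ℝ) : ℝ := (((⌊t / L⌋).negOnePow : ℤ) : ℝ)

/-- size of the acceleration -/
noncomputable def acc (θ : ℝ) : ℝ :=
  if θ < 1 / 2 then 0 else if θ < 3 / 2 then 1 else Real.cos (θ - 3 / 2)

/-- acceleration -/
noncomputable def a (t : ℝ) : ℝ := -(sg t * acc (ph t))

/-- velocity -/
noncomputable def v (t : ℝ) : ℝ := 1 + ∫ s in (0 : ℝ)..t, a s

/-- position -/
noncomputable def x (t : ℝ) : ℝ := ∫ s in (0 : ℝ)..t, v s

/-- coefficient -/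
noncomputable def p (t : ℝ) : ℝ := if ph t < 1 / 2 then 0 else -1

/-- delay -/
noncomputable def τ (t : ℝ) : ℝ :=
  if ph t < 1 / 2 then 0 else if ph t < 3 / 2 then ph t + L - 3 / 2 else L

theorem ph_add (t : ℝ) : ph (t + L) = ph t := by
  unfold ph
  rw [add_div, div_self L_pos.ne', Int.fract_add_one]

theorem sg_add (t : ℝ) : sg (t + L) = -sg t := by
  unfold sg
  rw [add_div, div_self L_pos.ne', Int.floor_add_one, Int.negOnePow_succ]
  push_cast
  ring

theorem a_add (t : ℝ) : a (t + L) = -a t := by
  unfold a
  rw [ph_add, sg_add]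
  ring

theorem ph_nonneg (t : ℝ) : 0 ≤ ph t := mul_nonneg (Int.fract_nonneg _) L_pos.le

theorem ph_lt (t : ℝ) : ph t < L := by
  unfold ph
  have := mul_lt_mul_of_pos_right (Int.fract_lt_one (t / L)) L_pos
  linarith

theorem floor_zero {t : ℝ} (h0 : 0 ≤ t) (h1 : t < L) : ⌊t / L⌋ = 0 := by
  rw [Int.floor_eq_zero_iff]
  exact ⟨div_nonneg h0 L_pos.le, (div_lt_one L_pos).2 h1⟩

theorem ph_eq {t : ℝ} (h0 : 0 ≤ t) (h1 : t < L) : ph t = t := by
  unfold ph
  rw [Int.fract, floor_zero h0 h1]
  have := L_pos.ne'
  field_simp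
  simp

theorem a_eq {t : ℝ} (h0 : 0 ≤ t) (h1 : t < L) : a t = -acc t := by
  unfold a sg
  rw [ph_eq h0 h1, floor_zero h0 h1]
  simp

theorem measurable_ph : Measurable ph := by
  unfold ph
  exact (measurable_fract.comp (measurable_id.div_const L)).mul_const L

theorem measurable_sg : Measurable sg := by
  unfold sg
  exact (measurable_from_top (f := fun z : ℤ => (((z.negOnePow : ℤˣ) : ℤ) : ℝ))).comp
    (Int.measurable_floor.comp (measurable_id.div_const L))

theorem measurable_acc : Measurable acc := by
  unfold acc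
  exact Measurable.ite (measurableSet_lt measurable_id measurable_const) measurable_const
    (Measurable.ite (measurableSet_lt measurable_id measurable_const) measurable_const
      (by fun_prop))

theorem measurable_a : Measurable a := by
  unfold a
  exact (measurable_sg.mul (measurable_acc.comp measurable_ph)).neg

theorem measurable_p : Measurable p := by
  unfold p
  exact Measurable.ite (measurableSet_lt measurable_ph measurable_const) measurable_const
    measurable_const

theorem measurable_τ : Measurable τ := by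
  unfold τ
  exact Measurable.ite (measurableSet_lt measurable_ph measurable_const) measurable_const
    (Measurable.ite (measurableSet_lt measurable_ph measurable_const)
      ((measurable_ph.add_const L).sub_const _) measurable_const)

theorem abs_sg (t : ℝ) : |sg t| = 1 := by
  unfold sg
  rcases Int.units_eq_one_or ((⌊t / L⌋).negOnePow) with h | h <;> rw [h] <;> simp

theorem abs_a_le (t : ℝ) : |a t| ≤ 1 := by
  unfold a
  rw [abs_neg, abs_mul, abs_sg, one_mul]
  unfold acc
  split_ifs
  · simp
  · simp
  · exact Real.abs_cos_le_one _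

theorem loc_a : LocallyIntegrable a volume := by
  have h1 : LocallyIntegrable (fun _ : ℝ => (1 : ℝ)) volume := locallyIntegrable_const 1
  refine h1.mono measurable_a.aestronglyMeasurable (Eventually.of_forall (fun t => ?_))
  simpa using abs_a_le t

theorem int_a (s t : ℝ) : IntervalIntegrable a volume s t :=
  intervalIntegrable_iff.mpr <|
    (loc_a.integrableOn_isCompact isCompact_uIcc).mono_set uIoc_subset_uIcc

theorem continuous_v : Continuous v :=
  continuous_const.add (intervalIntegral.continuous_primitive int_a 0)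

theorem hasDerivAt_x (t : ℝ) : HasDerivAt x (v t) t :=
  intervalIntegral.integral_hasDerivAt_right (continuous_v.intervalIntegrable 0 t)
    (continuous_v.stronglyMeasurableAtFilter _ _) continuous_v.continuousAt

theorem ae_hasDerivAt_v : ∀ᵐ t, HasDerivAt v (a t) t := by
  filter_upwards [_root_.LocallyIntegrable.ae_hasDerivAt_integral loc_a] with t ht
  exact (ht 0).const_add 1

/-- explicit velocity on `[0, L]` -/
noncomputable def V (t : ℝ) : ℝ :=
  if t ≤ 1 / 2 then 1 else if t ≤ 3 / 2 then 3 / 2 - t else -Real.sin (t - 3 / 2)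

/-- explicit position on `[0, L]` -/
noncomputable def X (t : ℝ) : ℝ :=
  if t ≤ 1 / 2 then t else if t ≤ 3 / 2 then t - (t - 1 / 2) ^ 2 / 2 else Real.cos (t - 3 / 2)

theorem continuous_V : Continuous V := by
  unfold V
  refine Continuous.if_le continuous_const (Continuous.if_le (by fun_prop) (by fun_prop)
    continuous_id continuous_const (fun t ht => ?_)) continuous_id continuous_const
    (fun t ht => ?_)
  · rw [ht]
    simp
  · rw [ht]
    norm_num

theorem continuous_X : Continuous X := by
  unfold X
  refine Continuous.if_le continuous_id (Continuous.if_le (by fun_prop) (by fun_prop)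
    continuous_id continuous_const (fun t ht => ?_)) continuous_id continuous_const
    (fun t ht => ?_)
  · rw [ht]
    norm_num
  · rw [ht]
    norm_num

theorem hasDerivAt_V {t : ℝ} (h1 : t ≠ 1 / 2) (h2 : t ≠ 3 / 2) : HasDerivAt V (-acc t) t := by
  rcases lt_or_gt_of_ne h1 with h | h
  · have e : V =ᶠ[nhds t] fun _ => 1 := by
      filter_upwards [gt_mem_nhds h] with s hs
      unfold V
      rw [if_pos hs.le]
    refine HasDerivAt.congr_of_eventuallyEq ?_ e
    unfold acc
    rw [if_pos h, neg_zero]
    exact hasDerivAt_const t 1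
  · rcases lt_or_gt_of_ne h2 with h' | h'
    · have e : V =ᶠ[nhds t] fun s => 3 / 2 - s := by
        filter_upwards [lt_mem_nhds h, gt_mem_nhds h'] with s hs hs'
        unfold V
        rw [if_neg (not_le.2 hs), if_pos hs'.le]
      refine HasDerivAt.congr_of_eventuallyEq ?_ e
      unfold acc
      rw [if_neg (not_lt.2 h.le), if_pos h']
      exact (hasDerivAt_id t).const_sub _
    · have e : V =ᶠ[nhds t] fun s => -Real.sin (s - 3 / 2) := by
        filter_upwards [lt_mem_nhds h'] with s hs
        unfold V
        rw [if_neg (by intro hh; linarith), if_neg (not_le.2 hs)]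
      refine HasDerivAt.congr_of_eventuallyEq ?_ e
      unfold acc
      rw [if_neg (not_lt.2 h.le), if_neg (not_lt.2 h'.le)]
      refine ((((hasDerivAt_id t).sub_const (3 / 2)).sin).fun_neg).congr_deriv ?_
      simp

theorem hasDerivAt_X {t : ℝ} (h1 : t ≠ 1 / 2) (h2 : t ≠ 3 / 2) : HasDerivAt X (V t) t := by
  rcases lt_or_gt_of_ne h1 with h | h
  · have e : X =ᶠ[nhds t] fun s => s := by
      filter_upwards [gt_mem_nhds h] with s hs
      unfold X
      rw [if_pos hs.le]
    refine HasDerivAt.congr_of_eventuallyEq ?_ e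
    unfold V
    rw [if_pos h.le]
    exact hasDerivAt_id t
  · rcases lt_or_gt_of_ne h2 with h' | h'
    · have e : X =ᶠ[nhds t] fun s => s - (s - 1 / 2) ^ 2 / 2 := by
        filter_upwards [lt_mem_nhds h, gt_mem_nhds h'] with s hs hs'
        unfold X
        rw [if_neg (not_le.2 hs), if_pos hs'.le]
      refine HasDerivAt.congr_of_eventuallyEq ?_ e
      unfold V
      rw [if_neg (not_le.2 h), if_pos h'.le]
      refine ((hasDerivAt_id t).sub ((((hasDerivAt_id t).sub_const (1 / 2)).pow 2).div_const
        2)).congr_deriv ?_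
      simp only [id]
      norm_num
      ring
    · have e : X =ᶠ[nhds t] fun s => Real.cos (s - 3 / 2) := by
        filter_upwards [lt_mem_nhds h'] with s hs
        unfold X
        rw [if_neg (by intro hh; linarith), if_neg (not_le.2 hs)]
      refine HasDerivAt.congr_of_eventuallyEq ?_ e
      unfold V
      rw [if_neg (not_le.2 h), if_neg (not_le.2 h')]
      have := (((hasDerivAt_id t).sub_const (3 / 2)).cos)
      simpa using this

theorem v_eq {t : ℝ} (h0 : 0 ≤ t) (h1 : t ≤ L) : v t = V t := by
  have h := MeasureTheory.integral_eq_of_hasDerivAt_off_countable V a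
    (s := {1 / 2, 3 / 2}) (a := 0) (b := t) ((Set.finite_singleton _).insert _).countable
    continuous_V.continuousOn (fun s hs => by
      rw [min_eq_left h0, max_eq_right h0] at hs
      have hs1 : s ≠ 1 / 2 := fun h => hs.2 (by simp [h])
      have hs2 : s ≠ 3 / 2 := fun h => hs.2 (by simp [h])
      rw [a_eq hs.1.1.le (lt_of_lt_of_le hs.1.2 h1)]
      exact hasDerivAt_V hs1 hs2) (int_a 0 t)
  unfold v
  rw [h]
  have : V 0 = 1 := by
    unfold V
    norm_num
  rw [this]
  ring

theorem x_eq {t : ℝ} (h0 : 0 ≤ t) (h1 : t ≤ L) : x t = X t := by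
  have h := MeasureTheory.integral_eq_of_hasDerivAt_off_countable X v
    (s := {1 / 2, 3 / 2}) (a := 0) (b := t) ((Set.finite_singleton _).insert _).countable
    continuous_X.continuousOn (fun s hs => by
      rw [min_eq_left h0, max_eq_right h0] at hs
      have hs1 : s ≠ 1 / 2 := fun h => hs.2 (by simp [h])
      have hs2 : s ≠ 3 / 2 := fun h => hs.2 (by simp [h])
      rw [v_eq hs.1.1.le (le_trans hs.1.2.le h1)]
      exact hasDerivAt_X hs1 hs2) (continuous_v.intervalIntegrable 0 t)
  unfold x
  rw [h]
  have : X 0 = 0 := by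
    unfold X
    norm_num
  rw [this]
  ring

theorem v_L : v L = -1 := by
  have := L_gt
  rw [v_eq L_pos.le le_rfl]
  unfold V
  rw [if_neg (by intro h; linarith), if_neg (by intro h; linarith), L_sub, Real.sin_pi_div_two]

theorem x_L : x L = 0 := by
  have := L_gt
  rw [x_eq L_pos.le le_rfl]
  unfold X
  rw [if_neg (by intro h; linarith), if_neg (by intro h; linarith), L_sub, Real.cos_pi_div_two]

theorem v_add (t : ℝ) : v (t + L) = -v t := by
  have h1 : ∫ s in (0 : ℝ)..(t + L), a s = (∫ s in (0 : ℝ)..L, a s) +
      ∫ s in L..(t + L), a s :=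
    (intervalIntegral.integral_add_adjacent_intervals (int_a _ _) (int_a _ _)).symm
  have h2 : ∫ s in L..(t + L), a s = -∫ s in (0 : ℝ)..t, a s := by
    have h3 := intervalIntegral.integral_comp_add_right a L (a := 0) (b := t)
    rw [zero_add] at h3
    rw [← h3]
    simp_rw [a_add]
    rw [intervalIntegral.integral_neg]
  have h4 := v_L
  unfold v at h4 ⊢
  rw [h1, h2]
  linarith

theorem x_add (t : ℝ) : x (t + L) = -x t := by
  have h1 : ∫ s in (0 : ℝ)..(t + L), v s = (∫ s in (0 : ℝ)..L, v s) +
      ∫ s in L..(t + L), v s :=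
    (intervalIntegral.integral_add_adjacent_intervals (continuous_v.intervalIntegrable _ _)
      (continuous_v.intervalIntegrable _ _)).symm
  have h2 : ∫ s in L..(t + L), v s = -∫ s in (0 : ℝ)..t, v s := by
    have h3 := intervalIntegral.integral_comp_add_right v L (a := 0) (b := t)
    rw [zero_add] at h3
    rw [← h3]
    simp_rw [v_add]
    rw [intervalIntegral.integral_neg]
  have h4 := x_L
  unfold x at h4 ⊢
  rw [h1, h2, h4]
  ring

theorem x_anti (t : ℝ) (n : ℤ) : x (t + n * L) = ((n.negOnePow : ℤ) : ℝ) * x t := by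
  induction n using Int.induction_on with
  | zero => simp
  | succ n ih =>
    have h1 : t + ((n : ℤ) + 1 : ℤ) * L = t + (n : ℤ) * L + L := by
      push_cast
      ring
    rw [h1, x_add, ih, Int.negOnePow_succ]
    push_cast
    ring
  | pred n ih =>
    have h1 : x (t + (-(n : ℤ) - 1 : ℤ) * L + L) = -x (t + (-(n : ℤ) - 1 : ℤ) * L) := x_add _
    have h2 : t + (-(n : ℤ) - 1 : ℤ) * L + L = t + (-(n : ℤ) : ℤ) * L := by
      push_cast
      ring
    rw [h2, ih] at h1
    have h3 : (-(n : ℤ)).negOnePow = -(-(n : ℤ) - 1).negOnePow := by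
      rw [← Int.negOnePow_succ, sub_add_cancel]
    rw [h3] at h1
    push_cast at h1 ⊢
    linarith

theorem t_eq (t : ℝ) : t = ph t + ⌊t / L⌋ * L := by
  unfold ph
  rw [← add_mul, Int.fract_add_floor, div_mul_cancel₀ _ L_pos.ne']

theorem x_phase (t θ : ℝ) (h0 : 0 ≤ θ) (h1 : θ ≤ L) : x (θ + ⌊t / L⌋ * L) = sg t * X θ := by
  rw [x_anti, x_eq h0 h1]
  rfl

theorem equation (t : ℝ) : a t = -(p t * x (t - τ t)) := by
  have hL := L_gt
  unfold a p τ acc
  by_cases h1 : ph t < 1 / 2
  · simp only [if_pos h1, mul_zero, zero_mul, neg_zero]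
  · by_cases h2 : ph t < 3 / 2
    · simp only [if_neg h1, if_pos h2]
      have e1 : t - (ph t + L - 3 / 2) + L = 3 / 2 + ⌊t / L⌋ * L := by
        have := t_eq t
        linarith
      have h3 := x_add (t - (ph t + L - 3 / 2))
      rw [e1, x_phase t (3 / 2) (by norm_num) (by linarith)] at h3
      have h4 : X (3 / 2) = 1 := by
        unfold X
        norm_num
      rw [h4] at h3
      linarith
    · simp only [if_neg h1, if_neg h2]
      have h3 := x_add (t - L)
      rw [sub_add_cancel] at h3
      have h4 : x t = sg t * X (ph t) := by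
        conv_lhs => rw [t_eq t]
        exact x_phase t (ph t) (ph_nonneg t) (ph_lt t).le
      have h5 : X (ph t) = Real.cos (ph t - 3 / 2) := by
        unfold X
        rcases (not_lt.1 h2).eq_or_lt with h6 | h6
        · rw [← h6]
          norm_num
        · rw [if_neg (by intro h; linarith), if_neg (not_le.2 h6)]
      rw [h5] at h4
      linarith

theorem τ_nonneg (t : ℝ) : 0 ≤ τ t := by
  have hL := L_gt
  have := ph_nonneg t
  unfold τ
  split_ifs <;> linarith

theorem τ_le (t : ℝ) : τ t ≤ L := by
  have hL := L_gt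
  unfold τ
  split_ifs <;> linarith

end Pool.Agent.X188.Delay
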